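import Pool.Agent.Helper65.LT.Pc

/-!
PROJECT LT (MP_274814), block F4-F6, piece P15b: the functions `ww` in closed form.
-/

namespace Pool.Agent.Helper57.LT

open Pool.Agent.Helper34.LT Pool.Agent.Helper65.LT Finset Complex Filter Topology

theorem ww_eq' (q a b n : ℕ) (hq : q ≠ 0) {s : ℂ} (h0 : s ≠ 0) (h1 : ‖s‖ < 1) :
    ww q a b n s = s ^ (-(n : ℤ)) * (1 - s ^ q) ^ (bt q a b n : ℂ) := by
  have h2 : ‖s ^ q‖ < 1 := by
    rw [norm_pow]
    exact pow_lt_one₀ (norm_nonneg s) h1 hq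
  have h3 := (cc_series (bt q a b n) h2).mul_left (s ^ (-(n : ℤ)))
  have h4 : (fun p : ℕ => s ^ (-(n : ℤ)) * ((cc (bt q a b n) p : ℂ) * (s ^ q) ^ p)) =
      fun p : ℕ => (cc (bt q a b n) p : ℂ) * s ^ ((q * p : ℤ) - n) := by
    funext p
    have h5 : s ^ ((q * p : ℤ) - n) = s ^ (-(n : ℤ)) * (s ^ q) ^ p := by
      rw [sub_eq_add_neg, add_comm, zpow_add₀ h0, ← pow_mul, ← zpow_natCast s (q * p)]
      push_cast
      rfl
    rw [h5]
    ring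
  rw [h4] at h3
  exact h3.tsum_eq

theorem P15b_dvd {q a b n : ℕ} (hq : q ≠ 0) (hab : Nat.Coprime (a + b) q) (hn : sg q a b n) :
    q ∣ n - Nk q a b (cls q a b n) := by
  have : NeZero q := ⟨hq⟩
  have h0 : ((a + b : ℕ) : ZMod q) * ((a + b : ℕ) : ZMod q)⁻¹ = 1 :=
    ZMod.coe_mul_inv_eq_one (a + b) hab
  have h1 : ((Nk q a b (cls q a b n) : ℕ) : ZMod q) = (n : ZMod q) := by
    unfold Nk
    rw [Nat.cast_add, ZMod.natCast_mod, ZMod.natCast_mod, ← Nat.cast_add, ← Nat.mul_add,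
      Nat.cast_mul]
    unfold cls
    rw [ZMod.natCast_zmod_val, mul_assoc, mul_comm (((a + b : ℕ) : ZMod q)⁻¹), h0, mul_one]
  rw [← ZMod.natCast_eq_zero_iff, Nat.cast_sub hn, h1, sub_self]

/-- version for coprime numbers -/
theorem ww_sg_cop {q a b n : ℕ} (hq : q ≠ 0) (hab : Nat.Coprime (a + b) q) (hn : sg q a b n)
    {s : ℂ} (h0 : s ≠ 0) (h1 : ‖s‖ < 1) :
    ww q a b n s =
      (s ^ (-(q : ℤ))) ^ ((n - Nk q a b (cls q a b n)) / q) * w0 q a b (cls q a b n) s := by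
  obtain ⟨e, he⟩ := P15b_dvd hq hab hn
  have hle : Nk q a b (cls q a b n) ≤ n := hn
  rw [ww_eq' q a b n hq h0 h1, he, Nat.mul_div_cancel_left _ (Nat.pos_of_ne_zero hq)]
  unfold w0 bt
  rw [← mul_assoc]
  congr 1
  have h2 : (n : ℤ) = q * e + Nk q a b (cls q a b n) := by
    have h3 : n = q * e + Nk q a b (cls q a b n) := by omega
    exact_mod_cast h3
  rw [← zpow_natCast (s ^ (-(q : ℤ))) e, ← zpow_mul, ← zpow_add₀ h0]
  congr 1
  linarith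

theorem ww_sg' {q a b n : ℕ} (hq : q.Prime) (hab : ¬ q ∣ a + b) (hn : sg q a b n) {s : ℂ} (h0 : s ≠ 0)
    (h1 : ‖s‖ < 1) :
    ww q a b n s =
      (s ^ (-(q : ℤ))) ^ ((n - Nk q a b (cls q a b n)) / q) * w0 q a b (cls q a b n) s :=
  ww_sg_cop hq.ne_zero ((hq.coprime_iff_not_dvd.2 hab).symm) hn h0 h1

end Pool.Agent.Helper57.LT
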